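import Mathlib

set_option autoImplicit false

/-! # Duality for the linear fibres -/

namespace Pool.Agent.Lib_helper49

open Matrix

section Duality

variable {m n : Type} [Fintype m] [Fintype n] {K : Type} [Field K]
  (X Y : Matrix m m K) (X' Y' : Matrix n n K)

/-- The linear map whose kernel is the fibre. -/
def Dmap : (Matrix m n K × Matrix m n K) →ₗ[K] Matrix m n K where
  toFun z := z.1 * Y' + X * z.2 - (z.2 * X' + Y * z.1)
  map_add' z w := by
    simp only [Prod.fst_add, Prod.snd_add, Matrix.add_mul, Matrix.mul_add]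
    abel
  map_smul' c z := by
    simp only [Prod.smul_fst, Prod.smul_snd, Matrix.smul_mul, Matrix.mul_smul, RingHom.id_apply,
      smul_sub, smul_add]

/-- Intertwiners. -/
def Hsub : Submodule K (Matrix n m K) where
  carrier := {θ | θ * X = X' * θ ∧ θ * Y = Y' * θ}
  add_mem' := by
    rintro a b ⟨h1, h2⟩ ⟨h3, h4⟩
    exact ⟨by rw [Matrix.add_mul, Matrix.mul_add, h1, h3],
      by rw [Matrix.add_mul, Matrix.mul_add, h2, h4]⟩
  zero_mem' := by simp
  smul_mem' := by
    rintro c a ⟨h1, h2⟩
    exact ⟨by rw [Matrix.smul_mul, Matrix.mul_smul, h1],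
      by rw [Matrix.smul_mul, Matrix.mul_smul, h2]⟩

/-- The trace pairing. -/
def trPair : Matrix n m K →ₗ[K] Module.Dual K (Matrix m n K) where
  toFun θ :=
    { toFun := fun M => (θ * M).trace
      map_add' := fun M N => by rw [Matrix.mul_add, Matrix.trace_add]
      map_smul' := fun c M => by
        rw [Matrix.mul_smul, Matrix.trace_smul, RingHom.id_apply] }
  map_add' θ η := by
    apply LinearMap.ext
    intro M
    exact (congrArg Matrix.trace (Matrix.add_mul θ η M)).trans (Matrix.trace_add _ _)
  map_smul' c θ := by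
    apply LinearMap.ext
    intro M
    exact (congrArg Matrix.trace (Matrix.smul_mul c θ M)).trans (Matrix.trace_smul _ _)

theorem trPair_apply (θ : Matrix n m K) (M : Matrix m n K) :
    trPair θ M = (θ * M).trace := rfl

theorem trPair_injective : Function.Injective (trPair : Matrix n m K →ₗ[K] _) := by
  intro θ η h
  rw [Matrix.ext_iff_trace_mul_right]
  intro x
  exact congrArg (fun F => F x) h

theorem trPair_surjective : Function.Surjective (trPair : Matrix n m K →ₗ[K] _) := by
  have hf : Module.finrank K (Matrix n m K) = Module.finrank K (Module.Dual K (Matrix m n K)) := by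
    rw [Subspace.dual_finrank_eq, Module.finrank_matrix, Module.finrank_matrix]
    ring
  exact (LinearMap.injective_iff_surjective_of_finrank_eq_finrank hf).1 trPair_injective

theorem ker_dual :
    LinearMap.ker ((Dmap X Y X' Y').dualMap.comp (trPair : Matrix n m K →ₗ[K] _)) =
      Hsub X Y X' Y' := by
  ext θ
  rw [LinearMap.mem_ker]
  have key : ∀ z : Matrix m n K × Matrix m n K,
      ((Dmap X Y X' Y').dualMap.comp (trPair : Matrix n m K →ₗ[K] _)) θ z =
      ((Y' * θ - θ * Y) * z.1).trace + ((θ * X - X' * θ) * z.2).trace := by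
    intro z
    show (θ * (z.1 * Y' + X * z.2 - (z.2 * X' + Y * z.1))).trace = _
    have e1 : (θ * (z.1 * Y')).trace = (Y' * θ * z.1).trace := by
      rw [← Matrix.mul_assoc, Matrix.trace_mul_comm, Matrix.mul_assoc]
    have e2 : (θ * (z.2 * X')).trace = (X' * θ * z.2).trace := by
      rw [← Matrix.mul_assoc, Matrix.trace_mul_comm, Matrix.mul_assoc]
    rw [Matrix.mul_sub, Matrix.mul_add, Matrix.mul_add, Matrix.trace_sub, Matrix.trace_add,
      Matrix.trace_add, e1, e2, Matrix.sub_mul, Matrix.sub_mul, Matrix.trace_sub,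
      Matrix.trace_sub, ← Matrix.mul_assoc, ← Matrix.mul_assoc]
    ring
  constructor
  · intro h
    have h' : ∀ z : Matrix m n K × Matrix m n K,
      ((Y' * θ - θ * Y) * z.1).trace + ((θ * X - X' * θ) * z.2).trace = 0 := by
      intro z
      rw [← key, h]
      rfl
    have h1 : θ * X - X' * θ = 0 := by
      rw [Matrix.ext_iff_trace_mul_right]
      intro x
      have := h' (0, x)
      simpa using this
    have h2 : Y' * θ - θ * Y = 0 := by
      rw [Matrix.ext_iff_trace_mul_right]
      intro x
      have := h' (x, 0)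
      simpa using this
    exact ⟨sub_eq_zero.1 h1, (sub_eq_zero.1 h2).symm⟩
  · rintro ⟨h1, h2⟩
    apply LinearMap.ext
    intro z
    rw [key, h1, h2]
    simp

theorem finrank_ker_Dmap :
    Module.finrank K (LinearMap.ker (Dmap X Y X' Y')) =
      Fintype.card m * Fintype.card n + Module.finrank K (Hsub X Y X' Y') := by
  have h1 := LinearMap.finrank_range_add_finrank_ker (Dmap X Y X' Y')
  have h2 := LinearMap.finrank_range_add_finrank_ker
    ((Dmap X Y X' Y').dualMap.comp (trPair : Matrix n m K →ₗ[K] _))
  rw [ker_dual] at h2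
  have h3 : LinearMap.range ((Dmap X Y X' Y').dualMap.comp (trPair : Matrix n m K →ₗ[K] _)) =
      LinearMap.range (Dmap X Y X' Y').dualMap :=
    LinearMap.range_comp_of_range_eq_top _ (LinearMap.range_eq_top.2 trPair_surjective)
  rw [h3, LinearMap.finrank_range_dualMap_eq_finrank_range, Module.finrank_matrix] at h2
  rw [Module.finrank_prod, Module.finrank_matrix] at h1
  simp only [Module.finrank_self, mul_one] at h1 h2
  nlinarith [mul_comm (Fintype.card m) (Fintype.card n)]

end Duality

end Pool.Agent.Lib_helper49
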