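import Mathlib
import Pool.Agent.Lib_helper49.QCount

set_option autoImplicit false

/-! # Commuting pairs for the explicit quivers in terms of commuting pairs of matrices -/

namespace Pool.Agent.Lib_helper49

open Quiver

section

variable {A B : Type} [Fintype A] [DecidableEq A] (p0 p1 p2 : ℕ) (h0 h1 h2 : B → ℕ)
  (m : A → B → ℕ) (K : Type) [Field K]

instance instFX : ∀ v : Vt m, Fintype (Xv p0 p1 p2 h0 h1 h2 m v)
  | .a0 _ => inferInstanceAs (Fintype (Fin p0))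
  | .a1 _ => inferInstanceAs (Fintype (Fin p1 ⊕ Fin p0))
  | .a2 _ => inferInstanceAs (Fintype (TA p0 p1 p2))
  | .b0 b => inferInstanceAs (Fintype (Fin (h0 b) ⊕ (TA p0 p1 p2 × Sb m b)))
  | .b1 b => inferInstanceAs (Fintype (Fin (h1 b) ⊕ (Fin (h0 b) ⊕ (TA p0 p1 p2 × Sb m b))))
  | .b2 b => inferInstanceAs
      (Fintype (Fin (h2 b) ⊕ (Fin (h1 b) ⊕ (Fin (h0 b) ⊕ (TA p0 p1 p2 × Sb m b)))))

/-- Families of matrices over the model. -/
abbrev Fam : Type := ∀ v : Vt m, Matrix (Xv p0 p1 p2 h0 h1 h2 m v) (Xv p0 p1 p2 h0 h1 h2 m v) K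

variable {p0 p1 p2 h0 h1 h2 m K}

/-- Naturality. -/
def NatF (F : Fam p0 p1 p2 h0 h1 h2 m K) : Prop :=
  ∀ (v w : Vt m) (e : v ⟶ w),
      (∀ x x' : Xv p0 p1 p2 h0 h1 h2 m v,
        F w (mpv p0 p1 p2 h0 h1 h2 m v w e x') (mpv p0 p1 p2 h0 h1 h2 m v w e x) = F v x' x) ∧
      (∀ (x : Xv p0 p1 p2 h0 h1 h2 m v) (y : Xv p0 p1 p2 h0 h1 h2 m w),
        (∀ x' : Xv p0 p1 p2 h0 h1 h2 m v, mpv p0 p1 p2 h0 h1 h2 m v w e x' ≠ y) →
        F w y (mpv p0 p1 p2 h0 h1 h2 m v w e x) = 0)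

/-- Radicality. -/
def RadF (F : Fam p0 p1 p2 h0 h1 h2 m K) : Prop :=
  ∀ (v : Vt m) (k : Fin (dv p0 p1 p2 h0 h1 h2 m v)) (x : Xv p0 p1 p2 h0 h1 h2 m v),
    F v (genv p0 p1 p2 h0 h1 h2 m v k) x = 0

/-- The family of matrices made from data. -/
def mkF (xa : A → Matrix (TA p0 p1 p2) (TA p0 p1 p2) K)
    (xb : ∀ b : B, Matrix (TA (h0 b) (h1 b) (h2 b)) (TA (h0 b) (h1 b) (h2 b)) K)
    (z : ∀ b : B, Sb m b → Matrix (TA p0 p1 p2) (TA (h0 b) (h1 b) (h2 b)) K) :
    Fam p0 p1 p2 h0 h1 h2 m K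
  | .a0 a => (xa a).submatrix (fun x => Sum.inr (Sum.inr x)) (fun x => Sum.inr (Sum.inr x))
  | .a1 a => (xa a).submatrix (fun x => Sum.inr x) (fun x => Sum.inr x)
  | .a2 a => xa a
  | .b0 b => (big (fun s : Sb m b => xa s.1) (xb b) (z b)).submatrix
      (fun x => Sum.inr (Sum.inr x)) (fun x => Sum.inr (Sum.inr x))
  | .b1 b => (big (fun s : Sb m b => xa s.1) (xb b) (z b)).submatrix
      (fun x => Sum.inr x) (fun x => Sum.inr x)
  | .b2 b => big (fun s : Sb m b => xa s.1) (xb b) (z b)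

omit [Fintype A] in
theorem radF_mkF {xa : A → Matrix (TA p0 p1 p2) (TA p0 p1 p2) K}
    {xb : ∀ b : B, Matrix (TA (h0 b) (h1 b) (h2 b)) (TA (h0 b) (h1 b) (h2 b)) K}
    (z : ∀ b : B, Sb m b → Matrix (TA p0 p1 p2) (TA (h0 b) (h1 b) (h2 b)) K)
    (ha : ∀ a, Low (xa a)) (hb : ∀ b, Low (xb b)) : RadF (mkF (m := m) xa xb z) := by
  intro v k x
  cases v with
  | a0 a => exact ha a _ _ (by simp [lev])
  | a1 a => exact ha a _ _ (by rcases x with x | x <;> simp [lev, genv])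
  | a2 a => exact ha a _ _ (by rcases x with x | x | x <;> simp [lev, genv])
  | b0 b => rcases x with x | x
            · exact hb b _ _ (by simp [lev])
            · rfl
  | b1 b => rcases x with x | x | x
            · exact hb b _ _ (by simp [lev])
            · exact hb b _ _ (by simp [lev])
            · rfl
  | b2 b => rcases x with x | x | x | x
            · exact hb b _ _ (by simp [lev])
            · exact hb b _ _ (by simp [lev])
            · exact hb b _ _ (by simp [lev])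
            · rfl

omit [Fintype A] in
theorem natF_mkF {xa : A → Matrix (TA p0 p1 p2) (TA p0 p1 p2) K}
    {xb : ∀ b : B, Matrix (TA (h0 b) (h1 b) (h2 b)) (TA (h0 b) (h1 b) (h2 b)) K}
    (z : ∀ b : B, Sb m b → Matrix (TA p0 p1 p2) (TA (h0 b) (h1 b) (h2 b)) K)
    (ha : ∀ a, Low (xa a)) (hb : ∀ b, Low (xb b)) : NatF (mkF (m := m) xa xb z) := by
  have hr := radF_mkF (m := m) z ha hb
  intro v w e
  change Hm m _ _ at e
  cases e with
  | a01 a =>
    refine ⟨fun x x' => rfl, fun x y hy => ?_⟩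
    rcases y with y | y
    · exact hr (.a1 a) y _
    · exact absurd rfl (hy y)
  | a12 a =>
    refine ⟨fun x x' => rfl, fun x y hy => ?_⟩
    rcases y with y | y
    · exact hr (.a2 a) y _
    · exact absurd rfl (hy y)
  | b01 a =>
    refine ⟨fun x x' => rfl, fun x y hy => ?_⟩
    rcases y with y | y
    · exact hr (.b1 a) y _
    · exact absurd rfl (hy y)
  | b12 a =>
    refine ⟨fun x x' => rfl, fun x y hy => ?_⟩
    rcases y with y | y
    · exact hr (.b2 a) y _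
    · exact absurd rfl (hy y)
  | e a b k =>
    refine ⟨fun x x' => ?_, fun x y hy => ?_⟩
    · show Matrix.blockDiagonal (fun s : Sb m b => xa s.1) (x', (⟨a, k⟩ : Sb m b))
        (x, (⟨a, k⟩ : Sb m b)) = xa a x' x
      rw [Matrix.blockDiagonal_apply, if_pos rfl]
    · rcases y with y | ⟨y, s⟩
      · exact hr (.b0 b) y _
      · show Matrix.blockDiagonal (fun s : Sb m b => xa s.1) (y, s)
          (x, (⟨a, k⟩ : Sb m b)) = 0
        rw [Matrix.blockDiagonal_apply, if_neg]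
        rintro rfl
        exact hy y rfl

omit [Fintype A] [DecidableEq A] in
theorem lowA_of {F : Fam p0 p1 p2 h0 h1 h2 m K} (hN : NatF F) (hR : RadF F) (a : A) :
    Low (p0 := p0) (p1 := p1) (p2 := p2) (F (.a2 a)) := by
  intro i j hij
  rcases i with i | i | i
  · exact hR (.a2 a) i j
  · rcases j with j | j
    · simp [lev] at hij
    · exact ((hN _ _ (Hm.a12 a)).1 j (Sum.inl i)).trans (hR (.a1 a) i j)
  · rcases j with j | j | j
    · simp [lev] at hij
    · simp [lev] at hij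
    · exact ((hN _ _ (Hm.a12 a)).1 (Sum.inr j) (Sum.inr i)).trans
        (((hN _ _ (Hm.a01 a)).1 j i).trans (hR (.a0 a) i j))

omit [Fintype A] [DecidableEq A] in
theorem lowB_of {F : Fam p0 p1 p2 h0 h1 h2 m K} (hN : NatF F) (hR : RadF F) (b : B) :
    Low (p0 := h0 b) (p1 := h1 b) (p2 := h2 b)
      (fun i j => F (.b2 b) (re.symm (Sum.inl i)) (re.symm (Sum.inl j))) := by
  intro i j hij
  rcases i with i | i | i
  · exact hR (.b2 b) i _
  · rcases j with j | j | j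
    · simp [lev] at hij
    · exact ((hN _ _ (Hm.b12 b)).1 (Sum.inl j) (Sum.inl i)).trans (hR (.b1 b) i _)
    · exact ((hN _ _ (Hm.b12 b)).1 (Sum.inr (Sum.inl j)) (Sum.inl i)).trans (hR (.b1 b) i _)
  · rcases j with j | j | j
    · simp [lev] at hij
    · simp [lev] at hij
    · exact ((hN _ _ (Hm.b12 b)).1 (Sum.inr (Sum.inl j)) (Sum.inr (Sum.inl i))).trans
        (((hN _ _ (Hm.b01 b)).1 (Sum.inl j) (Sum.inl i)).trans (hR (.b0 b) i _))

omit [Fintype A] in
theorem mkF_of {F : Fam p0 p1 p2 h0 h1 h2 m K} (hN : NatF F) (hR : RadF F) :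
    mkF (fun a => F (.a2 a))
      (fun b i j => F (.b2 b) (re.symm (Sum.inl i)) (re.symm (Sum.inl j)))
      (fun b s x g => F (.b2 b) (re.symm (Sum.inr (x, s))) (re.symm (Sum.inl g))) = F := by
  have hb2 : ∀ b : B, mkF (m := m) (fun a => F (.a2 a))
      (fun b i j => F (.b2 b) (re.symm (Sum.inl i)) (re.symm (Sum.inl j)))
      (fun b s x g => F (.b2 b) (re.symm (Sum.inr (x, s))) (re.symm (Sum.inl g))) (.b2 b) =
      F (.b2 b) := by
    intro b
    funext y x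
    rcases x with x | x | x | ⟨x, s⟩
    · rcases y with y | y | y | ⟨y, t⟩ <;> rfl
    · rcases y with y | y | y | ⟨y, t⟩ <;> rfl
    · rcases y with y | y | y | ⟨y, t⟩ <;> rfl
    · have e1 := fun y => (hN _ _ (Hm.b12 b)).1 (Sum.inr (Sum.inr (x, s))) y
      have e2 := fun y => (hN _ _ (Hm.b01 b)).1 (Sum.inr (x, s)) y
      rcases y with y | y | y | ⟨y, t⟩
      · exact (hR (.b2 b) y _).symm
      · exact ((e1 (Sum.inl y)).trans (hR (.b1 b) y _)).symm
      · exact ((e1 (Sum.inr (Sum.inl y))).trans ((e2 (Sum.inl y)).trans (hR (.b0 b) y _))).symm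
      · have e3 := (e1 (Sum.inr (Sum.inr (y, t)))).trans (e2 (Sum.inr (y, t)))
        refine Eq.trans ?_ e3.symm
        obtain ⟨a, k⟩ := s
        refine Eq.trans (Matrix.blockDiagonal_apply
          (fun s : Sb m b => (F (.a2 s.1) : Matrix (TA p0 p1 p2) (TA p0 p1 p2) K)) (y, t)
          (x, (⟨a, k⟩ : Sb m b))) ?_
        by_cases ht : t = ⟨a, k⟩
        · subst ht
          refine (if_pos rfl).trans ?_
          exact ((hN _ _ (Hm.e a b k)).1 x y).symm
        · refine (if_neg ht).trans ?_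
          refine ((hN _ _ (Hm.e a b k)).2 x (Sum.inr (y, t)) ?_).symm
          intro x' hx'
          apply ht
          have := Sum.inr_injective hx'
          exact (Prod.mk.inj this).2.symm
  funext v
  cases v with
  | a0 a =>
    funext y x
    exact ((hN _ _ (Hm.a12 a)).1 (Sum.inr x) (Sum.inr y)).trans ((hN _ _ (Hm.a01 a)).1 x y)
  | a1 a =>
    funext y x
    exact (hN _ _ (Hm.a12 a)).1 x y
  | a2 a => rfl
  | b2 b => exact hb2 b
  | b1 b =>
    funext y x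
    exact (congrFun (congrFun (hb2 b) (Sum.inr y)) (Sum.inr x)).trans
      ((hN _ _ (Hm.b12 b)).1 x y)
  | b0 b =>
    funext y x
    exact (congrFun (congrFun (hb2 b) (Sum.inr (Sum.inr y))) (Sum.inr (Sum.inr x))).trans
      (((hN _ _ (Hm.b12 b)).1 (Sum.inr x) (Sum.inr y)).trans ((hN _ _ (Hm.b01 b)).1 x y))

theorem comm_sub {α β : Type} [Fintype α] [Fintype β] {K : Type} [Field K]
    (F G : Matrix (α ⊕ β) (α ⊕ β) K) (F' G' : Matrix β β K)
    (hF : ∀ x y, F (Sum.inr x) (Sum.inr y) = F' x y)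
    (hG : ∀ x y, G (Sum.inr x) (Sum.inr y) = G' x y)
    (zF : ∀ k y, F (Sum.inl k) y = 0) (zG : ∀ k y, G (Sum.inl k) y = 0)
    (h : F * G = G * F) : F' * G' = G' * F' := by
  ext i j
  have := congrFun (congrFun h (Sum.inr i)) (Sum.inr j)
  simp only [Matrix.mul_apply, Fintype.sum_sum_type, zF, zG, hF, hG, mul_zero,
    Finset.sum_const_zero, zero_add] at this
  simpa only [Matrix.mul_apply] using this

variable (p0 p1 p2 h0 h1 h2 m K)

/-- Pairs of commuting pairs in the branches, with a point of each linear fibre. -/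
def Tot : Type :=
  Σ ξ : (A → PA p0 p1 p2 K) × (∀ b : B, PA (h0 b) (h1 b) (h2 b) K),
    ∀ b : B, ∀ s : Sb m b, Zs (ξ.1 s.1) (ξ.2 b)

variable {p0 p1 p2 h0 h1 h2 m K}

omit [DecidableEq A] in
theorem comm_all {F G : Fam p0 p1 p2 h0 h1 h2 m K} (hNF : NatF F) (hNG : NatF G)
    (hRF : RadF F) (hRG : RadF G) (ha : ∀ a, F (.a2 a) * G (.a2 a) = G (.a2 a) * F (.a2 a))
    (hb : ∀ b, F (.b2 b) * G (.b2 b) = G (.b2 b) * F (.b2 b)) (v : Vt m) :
    F v * G v = G v * F v := by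
  have ha1 : ∀ a, F (.a1 a) * G (.a1 a) = G (.a1 a) * F (.a1 a) := fun a =>
    comm_sub (F (.a2 a)) (G (.a2 a)) (F (.a1 a)) (G (.a1 a))
      (fun x y => (hNF _ _ (Hm.a12 a)).1 y x) (fun x y => (hNG _ _ (Hm.a12 a)).1 y x)
      (fun k y => hRF (.a2 a) k y) (fun k y => hRG (.a2 a) k y) (ha a)
  have hb1 : ∀ b, F (.b1 b) * G (.b1 b) = G (.b1 b) * F (.b1 b) := fun b =>
    comm_sub (F (.b2 b)) (G (.b2 b)) (F (.b1 b)) (G (.b1 b))
      (fun x y => (hNF _ _ (Hm.b12 b)).1 y x) (fun x y => (hNG _ _ (Hm.b12 b)).1 y x)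
      (fun k y => hRF (.b2 b) k y) (fun k y => hRG (.b2 b) k y) (hb b)
  cases v with
  | a0 a =>
    exact comm_sub (F (.a1 a)) (G (.a1 a)) (F (.a0 a)) (G (.a0 a))
      (fun x y => (hNF _ _ (Hm.a01 a)).1 y x) (fun x y => (hNG _ _ (Hm.a01 a)).1 y x)
      (fun k y => hRF (.a1 a) k y) (fun k y => hRG (.a1 a) k y) (ha1 a)
  | a1 a => exact ha1 a
  | a2 a => exact ha a
  | b0 b =>
    exact comm_sub (F (.b1 b)) (G (.b1 b)) (F (.b0 b)) (G (.b0 b))
      (fun x y => (hNF _ _ (Hm.b01 b)).1 y x) (fun x y => (hNG _ _ (Hm.b01 b)).1 y x)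
      (fun k y => hRF (.b1 b) k y) (fun k y => hRG (.b1 b) k y) (hb1 b)
  | b1 b => exact hb1 b
  | b2 b => exact hb b

/-- The map from data to commuting pairs of families of matrices. -/
def gTot (t : Tot p0 p1 p2 h0 h1 h2 m K) :
    MatPair (dv p0 p1 p2 h0 h1 h2 m) (Xv p0 p1 p2 h0 h1 h2 m) (genv p0 p1 p2 h0 h1 h2 m)
      (mpv p0 p1 p2 h0 h1 h2 m) K :=
  ⟨(mkF (fun a => (t.1.1 a).1.1) (fun b => (t.1.2 b).1.1) (fun b s => (t.2 b s).1.1),
    mkF (fun a => (t.1.1 a).1.2) (fun b => (t.1.2 b).1.2) (fun b s => (t.2 b s).1.2)),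
    natF_mkF _ (fun a => (t.1.1 a).2.1) (fun b => (t.1.2 b).2.1),
    natF_mkF _ (fun a => (t.1.1 a).2.2.1) (fun b => (t.1.2 b).2.2.1),
    radF_mkF _ (fun a => (t.1.1 a).2.1) (fun b => (t.1.2 b).2.1),
    radF_mkF _ (fun a => (t.1.1 a).2.2.1) (fun b => (t.1.2 b).2.2.1),
    comm_all
      (natF_mkF _ (fun a => (t.1.1 a).2.1) (fun b => (t.1.2 b).2.1))
      (natF_mkF _ (fun a => (t.1.1 a).2.2.1) (fun b => (t.1.2 b).2.2.1))
      (radF_mkF _ (fun a => (t.1.1 a).2.1) (fun b => (t.1.2 b).2.1))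
      (radF_mkF _ (fun a => (t.1.1 a).2.2.1) (fun b => (t.1.2 b).2.2.1))
      (fun a => (t.1.1 a).2.2.2)
      (fun b => by
        refine (big_mul (fun s : Sb m b => (t.1.1 s.1).1.1) (fun s : Sb m b => (t.1.1 s.1).1.2)
          (t.1.2 b).1.1 (t.1.2 b).1.2 (fun s => (t.2 b s).1.1) (fun s => (t.2 b s).1.2)).trans ?_
        refine Eq.trans ?_ (big_mul (fun s : Sb m b => (t.1.1 s.1).1.2)
          (fun s : Sb m b => (t.1.1 s.1).1.1)
          (t.1.2 b).1.2 (t.1.2 b).1.1 (fun s => (t.2 b s).1.2) (fun s => (t.2 b s).1.1)).symm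
        congr 1
        · funext s
          exact (t.1.1 s.1).2.2.2
        · exact (t.1.2 b).2.2.2
        · funext s
          exact (t.2 b s).2)⟩

theorem gTot_injective : Function.Injective (gTot (p0 := p0) (p1 := p1) (p2 := p2) (h0 := h0)
    (h1 := h1) (h2 := h2) (m := m) (K := K)) := by
  rintro ⟨⟨ξa, ξb⟩, z⟩ ⟨⟨ξa', ξb'⟩, z'⟩ h
  have h1 := congrArg Subtype.val h
  have hF := (Prod.ext_iff.1 h1).1
  have hG := (Prod.ext_iff.1 h1).2
  have ea : ξa = ξa' := by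
    funext a
    exact Subtype.ext (Prod.ext (congrFun hF (.a2 a)) (congrFun hG (.a2 a)))
  subst ea
  have hFb := fun b => big_inj (xs := fun s : Sb m b => (ξa s.1).1.1)
    (ys := fun s : Sb m b => (ξa s.1).1.1) (xb := (ξb b).1.1) (yb := (ξb' b).1.1)
    (z := fun s => (z b s).1.1) (w := fun s => (z' b s).1.1) (congrFun hF (.b2 b))
  have hGb := fun b => big_inj (xs := fun s : Sb m b => (ξa s.1).1.2)
    (ys := fun s : Sb m b => (ξa s.1).1.2) (xb := (ξb b).1.2) (yb := (ξb' b).1.2)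
    (z := fun s => (z b s).1.2) (w := fun s => (z' b s).1.2) (congrFun hG (.b2 b))
  have eb : ξb = ξb' := by
    funext b
    exact Subtype.ext (Prod.ext (hFb b).2.1 (hGb b).2.1)
  subst eb
  have ez : z = z' := by
    funext b s
    exact Subtype.ext (Prod.ext (congrFun (hFb b).2.2 s) (congrFun (hGb b).2.2 s))
  subst ez
  rfl

theorem gTot_surjective : Function.Surjective (gTot (p0 := p0) (p1 := p1) (p2 := p2) (h0 := h0)
    (h1 := h1) (h2 := h2) (m := m) (K := K)) := by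
  rintro ⟨⟨F, G⟩, hNF, hNG, hRF, hRG, hC⟩
  change NatF F at hNF
  change NatF G at hNG
  change RadF F at hRF
  change RadF G at hRG
  have eF := mkF_of hNF hRF
  have eG := mkF_of hNG hRG
  have hb : ∀ b : B, _ := fun b => by
    have h1 := hC (.b2 b)
    simp only at h1
    have h2 : F (.b2 b) = big (fun s : Sb m b => F (.a2 s.1))
      (fun i j => F (.b2 b) (re.symm (Sum.inl i)) (re.symm (Sum.inl j)))
      (fun s x g => F (.b2 b) (re.symm (Sum.inr (x, s))) (re.symm (Sum.inl g))) :=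
      (congrFun eF (.b2 b)).symm
    have h3 : G (.b2 b) = big (fun s : Sb m b => G (.a2 s.1))
      (fun i j => G (.b2 b) (re.symm (Sum.inl i)) (re.symm (Sum.inl j)))
      (fun s x g => G (.b2 b) (re.symm (Sum.inr (x, s))) (re.symm (Sum.inl g))) :=
      (congrFun eG (.b2 b)).symm
    have h4 := big_mul (fun s : Sb m b => F (.a2 s.1)) (fun s : Sb m b => G (.a2 s.1))
      (fun i j => F (.b2 b) (re.symm (Sum.inl i)) (re.symm (Sum.inl j)))
      (fun i j => G (.b2 b) (re.symm (Sum.inl i)) (re.symm (Sum.inl j)))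
      (fun s x g => F (.b2 b) (re.symm (Sum.inr (x, s))) (re.symm (Sum.inl g)))
      (fun s x g => G (.b2 b) (re.symm (Sum.inr (x, s))) (re.symm (Sum.inl g)))
    have h5 := big_mul (fun s : Sb m b => G (.a2 s.1)) (fun s : Sb m b => F (.a2 s.1))
      (fun i j => G (.b2 b) (re.symm (Sum.inl i)) (re.symm (Sum.inl j)))
      (fun i j => F (.b2 b) (re.symm (Sum.inl i)) (re.symm (Sum.inl j)))
      (fun s x g => G (.b2 b) (re.symm (Sum.inr (x, s))) (re.symm (Sum.inl g)))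
      (fun s x g => F (.b2 b) (re.symm (Sum.inr (x, s))) (re.symm (Sum.inl g)))
    rw [← h2, ← h3] at h4
    rw [← h2, ← h3] at h5
    exact big_inj (h4.symm.trans (Eq.trans h1 h5))
  refine ⟨⟨⟨fun a => ⟨(F (.a2 a), G (.a2 a)), lowA_of hNF hRF a, lowA_of hNG hRG a,
    hC (.a2 a)⟩, fun b => ⟨(fun i j => F (.b2 b) (re.symm (Sum.inl i)) (re.symm (Sum.inl j)),
      fun i j => G (.b2 b) (re.symm (Sum.inl i)) (re.symm (Sum.inl j))),
      lowB_of hNF hRF b, lowB_of hNG hRG b, (hb b).2.1⟩⟩,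
      fun b s => ⟨(fun x g => F (.b2 b) (re.symm (Sum.inr (x, s))) (re.symm (Sum.inl g)),
        fun x g => G (.b2 b) (re.symm (Sum.inr (x, s))) (re.symm (Sum.inl g))),
        congrFun (hb b).2.2 s⟩⟩, ?_⟩
  apply Subtype.ext
  exact Prod.ext eF eG

theorem card_matPair_eq_tot :
    Nat.card (MatPair (dv p0 p1 p2 h0 h1 h2 m) (Xv p0 p1 p2 h0 h1 h2 m)
      (genv p0 p1 p2 h0 h1 h2 m) (mpv p0 p1 p2 h0 h1 h2 m) K) =
    Nat.card (Tot p0 p1 p2 h0 h1 h2 m K) :=
  (Nat.card_congr (Equiv.ofBijective _ ⟨gTot_injective, gTot_surjective⟩)).symm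

end

end Pool.Agent.Lib_helper49
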