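import Mathlib
import Pool.Agent.Lib_helper49.QCyc
import Pool.Agent.Lib_helper49.QSum

set_option autoImplicit false

/-! # Three-level modules: detection of cyclic modules, incidence -/

namespace Pool.Agent.Lib_helper49

open Matrix

section

variable {p0 p1 p2 : ℕ} {K : Type} [Field K]

theorem lev_le (i : TA p0 p1 p2) : lev i ≤ 2 := by
  rcases i with i | i | i <;> simp [lev]

theorem low_mul2 {x y : Matrix (TA p0 p1 p2) (TA p0 p1 p2) K} (hx : Low x) (hy : Low y)
    (i j : TA p0 p1 p2) (h : ¬ (lev i + 2 ≤ lev j)) : (x * y) i j = 0 := by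
  rw [Matrix.mul_apply]
  apply Finset.sum_eq_zero
  intro k _
  by_cases h1 : lev i < lev k
  · have h2 : ¬ (lev k < lev j) := by omega
    rw [hy k j h2, mul_zero]
  · rw [hx i k h1, zero_mul]

theorem low_mul3 {x y z : Matrix (TA p0 p1 p2) (TA p0 p1 p2) K} (hx : Low x) (hy : Low y)
    (hz : Low z) : x * (y * z) = 0 := by
  ext i j
  rw [Matrix.mul_apply, Matrix.zero_apply]
  apply Finset.sum_eq_zero
  intro k _
  by_cases h1 : lev i < lev k
  · have h2 : ¬ (lev k + 2 ≤ lev j) := by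
      have := lev_le j
      omega
    rw [low_mul2 hy hz k j h2, mul_zero]
  · rw [hx i k h1, zero_mul]

theorem cube_of (ξ : PA p0 p1 p2 K) : Cube ξ.1.1 ξ.1.2 where
  comm := ξ.2.2.2
  xxx := low_mul3 ξ.2.1 ξ.2.1 ξ.2.1
  xxy := low_mul3 ξ.2.1 ξ.2.1 ξ.2.2.1
  xyy := low_mul3 ξ.2.1 ξ.2.2.1 ξ.2.2.1
  yyy := low_mul3 ξ.2.2.1 ξ.2.2.1 ξ.2.2.1

theorem row_mul {m : Type} [Fintype m] [DecidableEq m] (f : (m → K) →ₗ[K] K) (X : Matrix m m K)
    (j : m) : ∑ k, f (Pi.single k 1) * X k j = f (X *ᵥ Pi.single j 1) := by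
  have : X *ᵥ Pi.single j 1 = ∑ k, X k j • (Pi.single k 1 : m → K) := by
    ext i
    simp [Finset.sum_apply, Pi.single_apply]
  rw [this, map_sum]
  apply Finset.sum_congr rfl
  intro k _
  rw [map_smul, smul_eq_mul, mul_comm]

theorem none_zero (η : PA 1 0 0 K) : η.1.1 = 0 ∧ η.1.2 = 0 := by
  constructor
  · ext i j
    exact η.2.1 i j (by
      rcases i with i | i | i
      · exact i.elim0
      · exact i.elim0
      · rcases j with j | j | j
        · exact j.elim0
        · exact j.elim0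
        · simp [lev])
  · ext i j
    exact η.2.2.1 i j (by
      rcases i with i | i | i
      · exact i.elim0
      · exact i.elim0
      · rcases j with j | j | j
        · exact j.elim0
        · exact j.elim0
        · simp [lev])

/-- The top basis vector. -/
def topv : TA 2 2 1 → K := Pi.single (Sum.inl 0) 1

theorem surj_of_none (ξ : PA 2 2 1 K) (η : PA 1 0 0 K)
    (h : Module.finrank K (Hsub ξ.1.1 ξ.1.2 η.1.1 η.1.2) = 1) :
    Function.Surjective (Phi ξ.1.1 ξ.1.2 topv) := by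
  obtain ⟨hη1, hη2⟩ := none_zero η
  rw [hη1, hη2] at h
  by_contra hns
  have hlt : LinearMap.range (Phi ξ.1.1 ξ.1.2 (topv (K := K))) < ⊤ := by
    rw [lt_top_iff_ne_top]
    intro h1
    exact hns (LinearMap.range_eq_top.1 h1)
  obtain ⟨f0, hf0, hf0'⟩ := Submodule.exists_le_ker_of_lt_top _ hlt
  -- functionals killing the range, closed under the two operators
  let Good : ((TA 2 2 1 → K) →ₗ[K] K) → Prop := fun f =>
    f ≠ 0 ∧ ∀ c, f (Phi ξ.1.1 ξ.1.2 topv c) = 0
  have hG0 : Good f0 := ⟨hf0, fun c => hf0' ⟨c, rfl⟩⟩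
  have hcube := cube_of ξ
  have stepX : ∀ f, Good f → f.comp (mulVecLin ξ.1.1) ≠ 0 → Good (f.comp (mulVecLin ξ.1.1)) := by
    intro f hf h1
    refine ⟨h1, fun c => ?_⟩
    rw [LinearMap.comp_apply, mulVecLin_apply, Phi_X hcube]
    exact hf.2 _
  have stepY : ∀ f, Good f → f.comp (mulVecLin ξ.1.2) ≠ 0 → Good (f.comp (mulVecLin ξ.1.2)) := by
    intro f hf h1
    refine ⟨h1, fun c => ?_⟩
    rw [LinearMap.comp_apply, mulVecLin_apply, Phi_Y hcube]
    exact hf.2 _
  have step : ∀ f, Good f → (f.comp (mulVecLin ξ.1.1) = 0 ∧ f.comp (mulVecLin ξ.1.2) = 0) ∨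
      ∃ Z, Low Z ∧ Good (f.comp (mulVecLin Z)) := by
    intro f hf
    by_cases h1 : f.comp (mulVecLin ξ.1.1) = 0
    · by_cases h2 : f.comp (mulVecLin ξ.1.2) = 0
      · exact Or.inl ⟨h1, h2⟩
      · exact Or.inr ⟨_, ξ.2.2.1, stepY f hf h2⟩
    · exact Or.inr ⟨_, ξ.2.1, stepX f hf h1⟩
  have hex : ∃ f, Good f ∧ f.comp (mulVecLin ξ.1.1) = 0 ∧ f.comp (mulVecLin ξ.1.2) = 0 := by
    rcases step f0 hG0 with h1 | ⟨Z1, hZ1, hG1⟩
    · exact ⟨_, hG0, h1⟩
    · rcases step _ hG1 with h1 | ⟨Z2, hZ2, hG2⟩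
      · exact ⟨_, hG1, h1⟩
      · refine ⟨_, hG2, ?_, ?_⟩
        · rw [LinearMap.comp_assoc, LinearMap.comp_assoc, ← mulVecLin_mul, ← mulVecLin_mul,
            low_mul3 hZ1 hZ2 ξ.2.1, mulVecLin_zero, LinearMap.comp_zero]
        · rw [LinearMap.comp_assoc, LinearMap.comp_assoc, ← mulVecLin_mul, ← mulVecLin_mul,
            low_mul3 hZ1 hZ2 ξ.2.2.1, mulVecLin_zero, LinearMap.comp_zero]
  obtain ⟨f, ⟨hf, hfΦ⟩, hfX, hfY⟩ := hex
  let θf : Matrix (TA 1 0 0) (TA 2 2 1) K := fun _ j => f (Pi.single j 1)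
  have hθf : θf ∈ Hsub ξ.1.1 ξ.1.2 (0 : Matrix (TA 1 0 0) (TA 1 0 0) K) 0 := by
    constructor
    · ext i j
      rw [Matrix.mul_apply, Matrix.zero_mul]
      exact (row_mul f ξ.1.1 j).trans (congrArg (fun F => F (Pi.single j 1)) hfX)
    · ext i j
      rw [Matrix.mul_apply, Matrix.zero_mul]
      exact (row_mul f ξ.1.2 j).trans (congrArg (fun F => F (Pi.single j 1)) hfY)
  let θd : Matrix (TA 1 0 0) (TA 2 2 1) K := fun _ j => if Sum.inl 0 = j then 1 else 0
  have hθd : θd ∈ Hsub ξ.1.1 ξ.1.2 (0 : Matrix (TA 1 0 0) (TA 1 0 0) K) 0 := by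
    constructor
    · ext i j
      rw [Matrix.mul_apply, Matrix.zero_mul]
      show ∑ k, (if Sum.inl 0 = k then (1 : K) else 0) * ξ.1.1 k j = 0
      rw [Finset.sum_eq_single (Sum.inl 0)]
      · rw [if_pos rfl, one_mul]
        exact ξ.2.1 _ _ (by have := lev_le j; change ¬ (2 < lev j); omega)
      · intro k _ hk
        rw [if_neg (fun h => hk h.symm), zero_mul]
      · intro h
        exact absurd (Finset.mem_univ _) h
    · ext i j
      rw [Matrix.mul_apply, Matrix.zero_mul]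
      show ∑ k, (if Sum.inl 0 = k then (1 : K) else 0) * ξ.1.2 k j = 0
      rw [Finset.sum_eq_single (Sum.inl 0)]
      · rw [if_pos rfl, one_mul]
        exact ξ.2.2.1 _ _ (by have := lev_le j; change ¬ (2 < lev j); omega)
      · intro k _ hk
        rw [if_neg (fun h => hk h.symm), zero_mul]
      · intro h
        exact absurd (Finset.mem_univ _) h
  have hne : (⟨θd, hθd⟩ : Hsub ξ.1.1 ξ.1.2 (0 : Matrix (TA 1 0 0) (TA 1 0 0) K) 0) ≠ 0 := by
    intro h1
    have h2 : θd = 0 := congrArg Subtype.val h1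
    have h3 : θd (Sum.inr (Sum.inr 0)) (Sum.inl 0) = 0 := by rw [h2]; rfl
    simp [θd] at h3
  obtain ⟨t, ht⟩ := (finrank_eq_one_iff_of_nonzero' _ hne).1 h ⟨θf, hθf⟩
  have ht' : ∀ j, t * (if Sum.inl 0 = j then (1 : K) else 0) = f (Pi.single j 1) := fun j =>
    congrFun (congrFun (congrArg Subtype.val ht) (Sum.inr (Sum.inr 0))) j
  have hf1 : f (Pi.single (Sum.inl 0) 1) = 0 := by
    have := hfΦ ![1, 0, 0, 0, 0, 0]
    rw [Phi_apply] at this
    simpa [topv] using this
  have ht0 : t = 0 := by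
    have := ht' (Sum.inl 0)
    rw [hf1, if_pos rfl, mul_one] at this
    exact this
  apply hf
  apply LinearMap.pi_ext'
  intro j
  apply LinearMap.ext_ring
  have := ht' j
  rw [ht0, zero_mul] at this
  simpa using this.symm

theorem cyc_of_none (ξ : PA 2 2 1 K) (η : PA 1 0 0 K)
    (h : Module.finrank K (Hsub ξ.1.1 ξ.1.2 η.1.1 η.1.2) = 1) :
    ∃ u : Fin 3 → K, CycRel ξ.1.1 ξ.1.2 topv u := by
  have hs := surj_of_none ξ η h
  -- a relation between the quadratic monomials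
  let g : (Fin 3 → K) →ₗ[K] (Fin 2 → K) :=
    { toFun := fun u k => Phi ξ.1.1 ξ.1.2 topv ![0, 0, 0, u 0, u 1, u 2] (Sum.inr (Sum.inr k))
      map_add' := fun a b => by
        ext k
        simp only [Phi_apply, Pi.add_apply, Pi.smul_apply, smul_eq_mul]
        simp
        ring
      map_smul' := fun c a => by
        ext k
        simp only [Phi_apply, Pi.add_apply, Pi.smul_apply, smul_eq_mul, RingHom.id_apply]
        simp
        ring }
  have hker : LinearMap.ker g ≠ ⊥ := LinearMap.ker_ne_bot_of_finrank_lt (by simp)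
  obtain ⟨u, hu, hu0⟩ := (Submodule.ne_bot_iff _).1 hker
  have hrel : Phi ξ.1.1 ξ.1.2 topv ![0, 0, 0, u 0, u 1, u 2] = 0 := by
    ext i
    rcases i with i | i | i
    · rw [← Qu_mulVec]
      simp only [topv, mulVec_single_one, Pi.zero_apply, Qu, col_apply, Matrix.add_apply, Matrix.smul_apply]
      rw [low_mul2 ξ.2.1 ξ.2.1 _ _ (by simp [lev]), low_mul2 ξ.2.1 ξ.2.2.1 _ _ (by simp [lev]),
        low_mul2 ξ.2.2.1 ξ.2.2.1 _ _ (by simp [lev])]
      simp
    · rw [← Qu_mulVec]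
      simp only [topv, mulVec_single_one, Pi.zero_apply, Qu, col_apply, Matrix.add_apply, Matrix.smul_apply]
      rw [low_mul2 ξ.2.1 ξ.2.1 _ _ (by simp [lev]), low_mul2 ξ.2.1 ξ.2.2.1 _ _ (by simp [lev]),
        low_mul2 ξ.2.2.1 ξ.2.2.1 _ _ (by simp [lev])]
      simp
    · exact congrFun hu i
  have hU : (⟨![0, 0, 0, u 0, u 1, u 2], LinearMap.mem_ker.2 hrel⟩ :
      LinearMap.ker (Phi ξ.1.1 ξ.1.2 (topv (K := K)))) ≠ 0 := by
    intro h1
    have h2 := congrArg Subtype.val h1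
    apply hu0
    ext i
    fin_cases i
    · exact congrFun h2 3
    · exact congrFun h2 4
    · exact congrFun h2 5
  have hfin : Module.finrank K (LinearMap.ker (Phi ξ.1.1 ξ.1.2 (topv (K := K)))) = 1 := by
    have h1 := LinearMap.finrank_range_add_finrank_ker (Phi ξ.1.1 ξ.1.2 (topv (K := K)))
    rw [LinearMap.range_eq_top.2 hs, finrank_top] at h1
    simp only [Module.finrank_fintype_fun_eq_card, Fintype.card_sum, Fintype.card_fin] at h1
    omega
  refine ⟨u, hs, hrel, ?_⟩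
  intro c hc
  obtain ⟨t, ht⟩ := (finrank_eq_one_iff_of_nonzero' _ hU).1 hfin ⟨c, LinearMap.mem_ker.2 hc⟩
  exact ⟨t, (congrArg Subtype.val ht).symm⟩

/-- The symmetric form attached to a module with level sizes `1, 2, 1`. -/
def lam (η : PA 1 2 1 K) : Fin 3 → K :=
  ![(η.1.1 * η.1.1) (Sum.inr (Sum.inr 0)) (Sum.inl 0),
    (η.1.1 * η.1.2) (Sum.inr (Sum.inr 0)) (Sum.inl 0),
    (η.1.2 * η.1.2) (Sum.inr (Sum.inr 0)) (Sum.inl 0)]

theorem Qu_entry (u : Fin 3 → K) (η : PA 1 2 1 K) (i j : TA 1 2 1) :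
    Qu u η.1.1 η.1.2 i j =
      if i = Sum.inr (Sum.inr 0) ∧ j = Sum.inl 0 then
        u 0 * lam η 0 + u 1 * lam η 1 + u 2 * lam η 2 else 0 := by
  by_cases h : lev i + 2 ≤ lev j
  · have h1 : i = Sum.inr (Sum.inr 0) ∧ j = Sum.inl 0 := by
      rcases i with i | i | i
      · have := lev_le j
        change 2 + 2 ≤ lev j at h
        omega
      · have := lev_le j
        change 1 + 2 ≤ lev j at h
        omega
      · rcases j with j | j | j
        · exact ⟨by rw [Subsingleton.elim i 0], by rw [Subsingleton.elim j 0]⟩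
        · simp [lev] at h
        · simp [lev] at h
    rw [if_pos h1, h1.1, h1.2]
    simp [Qu, lam]
  · rw [if_neg]
    · simp only [Qu, Matrix.add_apply, Matrix.smul_apply]
      rw [low_mul2 η.2.1 η.2.1 _ _ h, low_mul2 η.2.1 η.2.2.1 _ _ h,
        low_mul2 η.2.2.1 η.2.2.1 _ _ h]
      simp
    · rintro ⟨rfl, rfl⟩
      exact h (by simp [lev])

theorem finrank_ker_Qu (u : Fin 3 → K) (η : PA 1 2 1 K) [Decidable
    (u 0 * lam η 0 + u 1 * lam η 1 + u 2 * lam η 2 = 0)] :
    Module.finrank K (LinearMap.ker (Qu u η.1.1 η.1.2).mulVecLin) =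
      if u 0 * lam η 0 + u 1 * lam η 1 + u 2 * lam η 2 = 0 then 4 else 3 := by
  by_cases h : u 0 * lam η 0 + u 1 * lam η 1 + u 2 * lam η 2 = 0
  · rw [if_pos h]
    have : Qu u η.1.1 η.1.2 = 0 := by
      ext i j
      rw [Qu_entry, h]
      simp
    rw [this, mulVecLin_zero, LinearMap.ker_zero, finrank_top]
    simp
  · rw [if_neg h]
    have hk : LinearMap.ker (Qu u η.1.1 η.1.2).mulVecLin =
        LinearMap.ker (LinearMap.proj (Sum.inl 0) : (TA 1 2 1 → K) →ₗ[K] K) := by
      ext w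
      rw [LinearMap.mem_ker, LinearMap.mem_ker, mulVecLin_apply, LinearMap.proj_apply]
      have key : ∀ i, (Qu u η.1.1 η.1.2 *ᵥ w) i = if i = Sum.inr (Sum.inr 0) then
          (u 0 * lam η 0 + u 1 * lam η 1 + u 2 * lam η 2) * w (Sum.inl 0) else 0 := by
        intro i
        rw [mulVec, dotProduct, Finset.sum_eq_single (Sum.inl 0)]
        · rw [Qu_entry]
          by_cases hi : i = Sum.inr (Sum.inr 0)
          · rw [if_pos ⟨hi, rfl⟩, if_pos hi]
          · rw [if_neg (fun h => hi h.1), if_neg hi, zero_mul]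
        · intro j _ hj
          rw [Qu_entry, if_neg (fun h => hj h.2), zero_mul]
        · intro h
          exact absurd (Finset.mem_univ _) h
      constructor
      · intro hw
        have := key (Sum.inr (Sum.inr 0))
        rw [hw, if_pos rfl] at this
        rcases mul_eq_zero.1 this.symm with h1 | h1
        · exact absurd h1 h
        · exact h1
      · intro hw
        ext i
        rw [key, hw]
        simp
    rw [hk]
    have h1 := LinearMap.finrank_range_add_finrank_ker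
      (LinearMap.proj (Sum.inl 0) : (TA 1 2 1 → K) →ₗ[K] K)
    have h2 : LinearMap.range (LinearMap.proj (Sum.inl 0) : (TA 1 2 1 → K) →ₗ[K] K) = ⊤ :=
      LinearMap.range_eq_top.2 (LinearMap.proj_surjective _)
    rw [h2, finrank_top] at h1
    simp only [Module.finrank_fintype_fun_eq_card, Fintype.card_sum, Fintype.card_fin,
      Module.finrank_self] at h1
    exact Nat.add_left_cancel (h1 : 1 + _ = 1 + 3)

end

end Pool.Agent.Lib_helper49
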