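import Mathlib

set_option autoImplicit false

/-! # Isolating a single exponent vector in a family of polynomial exponential sums -/

namespace Pool.Agent.Lib_helper49

open Polynomial

/-- The separating polynomial. -/
noncomputable def sepP (N k : ℕ) : Polynomial (Polynomial ℚ) :=
  ∏ j ∈ (Finset.range (N + 1)).erase k, (X - C (X ^ j))

theorem sepP_natDegree (N k : ℕ) (hk : k ≤ N) : (sepP N k).natDegree < N + 1 := by
  unfold sepP
  refine lt_of_le_of_lt (natDegree_prod_le _ _) ?_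
  have : ∑ j ∈ (Finset.range (N + 1)).erase k,
      (X - C (X ^ j) : Polynomial (Polynomial ℚ)).natDegree ≤
      ∑ j ∈ (Finset.range (N + 1)).erase k, 1 := by
    apply Finset.sum_le_sum
    intro j _
    exact (natDegree_X_sub_C _).le
  refine lt_of_le_of_lt this ?_
  rw [Finset.sum_const, smul_eq_mul, mul_one, Finset.card_erase_of_mem (by simp; omega)]
  simp

theorem sepP_map_eval (N k : ℕ) (q z : ℚ) :
    ((sepP N k).map (evalRingHom q)).eval z =
      ∏ j ∈ (Finset.range (N + 1)).erase k, (z - q ^ j) := by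
  unfold sepP
  rw [Polynomial.map_prod, eval_prod]
  apply Finset.prod_congr rfl
  intro j _
  simp

theorem sum_coeff (N k : ℕ) (hk : k ≤ N) (q z : ℚ) :
    ∑ j ∈ Finset.range (N + 1), ((sepP N k).coeff j).eval q * z ^ j =
      ∏ j ∈ (Finset.range (N + 1)).erase k, (z - q ^ j) := by
  rw [← sepP_map_eval, eval_eq_sum_range' (n := N + 1)]
  · apply Finset.sum_congr rfl
    intro j _
    rw [coeff_map, coe_evalRingHom]
  · exact lt_of_le_of_lt natDegree_map_le (sepP_natDegree N k hk)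

theorem isolate {E : Type} [Fintype E] [DecidableEq E] (N : ℕ) (ks : E → ℕ)
    (hk : ∀ e, ks e ≤ N) (P : (E → ℕ) → ℚ[X]) :
    ∃ F : ℚ[X], ∀ (q : ℕ) (Ξ : Type) [Fintype Ξ] (k : Ξ → E → ℕ), 2 ≤ q →
      (∀ ξ e, k ξ e ≤ N) →
      (∀ m : E → ℕ, (P m).eval (q : ℚ) = ∑ ξ : Ξ, ∏ e : E, ((q : ℚ) ^ (k ξ e)) ^ (m e)) →
      (F.eval (q : ℚ) = 0 ↔ ∀ ξ, k ξ ≠ ks) := by
  classical
  refine ⟨∑ t ∈ Fintype.piFinset (fun _ : E => Finset.range (N + 1)),
    (∏ e, (sepP N (ks e)).coeff (t e)) * P t, ?_⟩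
  intro q Ξ _ k hq hkN hP
  have h1 : (∑ t ∈ Fintype.piFinset (fun _ : E => Finset.range (N + 1)),
      (∏ e, (sepP N (ks e)).coeff (t e)) * P t).eval (q : ℚ) =
      ∑ ξ : Ξ, ∏ e : E, ∏ j ∈ (Finset.range (N + 1)).erase (ks e),
        ((q : ℚ) ^ (k ξ e) - (q : ℚ) ^ j) := by
    rw [eval_finsetSum]
    calc ∑ t ∈ Fintype.piFinset (fun _ : E => Finset.range (N + 1)),
        ((∏ e, (sepP N (ks e)).coeff (t e)) * P t).eval (q : ℚ)
        = ∑ t ∈ Fintype.piFinset (fun _ : E => Finset.range (N + 1)), ∑ ξ : Ξ,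
          ∏ e, (((sepP N (ks e)).coeff (t e)).eval (q : ℚ) * ((q : ℚ) ^ (k ξ e)) ^ (t e)) := by
          apply Finset.sum_congr rfl
          intro t _
          rw [eval_mul, hP, eval_prod, Finset.mul_sum]
          apply Finset.sum_congr rfl
          intro ξ _
          rw [Finset.prod_mul_distrib]
      _ = ∑ ξ : Ξ, ∑ t ∈ Fintype.piFinset (fun _ : E => Finset.range (N + 1)),
          ∏ e, (((sepP N (ks e)).coeff (t e)).eval (q : ℚ) * ((q : ℚ) ^ (k ξ e)) ^ (t e)) :=
          Finset.sum_comm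
      _ = _ := by
          apply Finset.sum_congr rfl
          intro ξ _
          rw [← Finset.prod_univ_sum (fun _ : E => Finset.range (N + 1))
            (fun e j => ((sepP N (ks e)).coeff j).eval (q : ℚ) * ((q : ℚ) ^ (k ξ e)) ^ j)]
          apply Finset.prod_congr rfl
          intro e _
          exact sum_coeff N (ks e) (hk e) q _
  have hinj : Function.Injective (fun n : ℕ => (q : ℚ) ^ n) := by
    intro a b hab
    have h2 : ((q ^ a : ℕ) : ℚ) = ((q ^ b : ℕ) : ℚ) := by push_cast; exact hab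
    exact Nat.pow_right_injective hq (Nat.cast_injective h2)
  have h2 : ∀ ξ : Ξ, (∏ e : E, ∏ j ∈ (Finset.range (N + 1)).erase (ks e),
        ((q : ℚ) ^ (k ξ e) - (q : ℚ) ^ j)) =
      if k ξ = ks then ∏ e : E, ∏ j ∈ (Finset.range (N + 1)).erase (ks e),
        ((q : ℚ) ^ (ks e) - (q : ℚ) ^ j) else 0 := by
    intro ξ
    by_cases h : k ξ = ks
    · rw [if_pos h, h]
    · rw [if_neg h]
      obtain ⟨e, he⟩ := Function.ne_iff.1 h
      apply Finset.prod_eq_zero (Finset.mem_univ e)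
      apply Finset.prod_eq_zero (i := k ξ e)
      · rw [Finset.mem_erase]
        exact ⟨he, Finset.mem_range.2 (Nat.lt_succ_of_le (hkN ξ e))⟩
      · exact sub_self _
  have h3 : (∏ e : E, ∏ j ∈ (Finset.range (N + 1)).erase (ks e),
        ((q : ℚ) ^ (ks e) - (q : ℚ) ^ j)) ≠ 0 := by
    apply Finset.prod_ne_zero_iff.2
    intro e _
    apply Finset.prod_ne_zero_iff.2
    intro j hj
    rw [Finset.mem_erase] at hj
    rw [sub_ne_zero]
    intro h
    exact hj.1 (hinj h).symm
  rw [h1]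
  simp only [h2]
  rw [← Finset.sum_filter, Finset.sum_const, nsmul_eq_mul, mul_eq_zero, or_iff_left h3,
    Nat.cast_eq_zero, Finset.card_eq_zero, Finset.filter_eq_empty_iff]
  simp

end Pool.Agent.Lib_helper49
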