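import Mathlib
import Pool.Agent.Lib_helper49.QExample
import Pool.Agent.Lib_helper49.QIsolate
import Pool.Agent.Lib_helper49.QFano

set_option autoImplicit false

/-! # The counts cannot all be polynomial -/

namespace Pool.Agent.Lib_helper49

open Matrix Polynomial

/-- Level sizes for the `b` branches. -/
def hh0 : Option Fn → ℕ := fun _ => 1
/-- Level sizes for the `b` branches. -/
def hh1 : Option Fn → ℕ
  | none => 0
  | some _ => 2
/-- Level sizes for the `b` branches. -/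
def hh2 : Option Fn → ℕ
  | none => 0
  | some _ => 1

theorem card_Zs {p0 p1 p2 h0 h1 h2 : ℕ} {K : Type} [Field K] [Fintype K] (xa : PA p0 p1 p2 K)
    (xb : PA h0 h1 h2 K) :
    Nat.card (Zs xa xb) = Fintype.card K ^
      Module.finrank K (LinearMap.ker (Dmap xa.1.1 xa.1.2 xb.1.1 xb.1.2)) := by
  rw [← Nat.card_eq_fintype_card, ← Module.natCard_eq_pow_finrank (K := K)]
  apply Nat.card_congr
  apply Equiv.subtypeEquivRight
  intro z
  rw [LinearMap.mem_ker]
  exact sub_eq_zero.symm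

/-- The configuration space. -/
abbrev Cfg (K : Type) [Field K] : Type :=
  (Fn → PA 2 2 1 K) × (∀ b : Option Fn, PA (hh0 b) (hh1 b) (hh2 b) K)

/-- The exponents. -/
noncomputable def kk {K : Type} [Field K] (ξ : Cfg K) (e : Fn × Option Fn) : ℕ :=
  Module.finrank K
    (LinearMap.ker (Dmap (ξ.1 e.1).1.1 (ξ.1 e.1).1.2 (ξ.2 e.2).1.1 (ξ.2 e.2).1.2))

/-- The target exponents. -/
def ks : Fn × Option Fn → ℕ
  | (_, none) => 5 * 1 + 1
  | (a, some l) => 5 * 4 + (if dt a.1 l.1 = 0 then 4 else 3)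

theorem kk_eq {K : Type} [Field K] (ξ : Cfg K) (e : Fn × Option Fn) :
    kk ξ e = Fintype.card (TA 2 2 1) * Fintype.card (TA (hh0 e.2) (hh1 e.2) (hh2 e.2)) +
      Module.finrank K (Hsub (ξ.1 e.1).1.1 (ξ.1 e.1).1.2 (ξ.2 e.2).1.1 (ξ.2 e.2).1.2) :=
  finrank_ker_Dmap _ _ _ _

theorem card_TA (p0 p1 p2 : ℕ) : Fintype.card (TA p0 p1 p2) = p2 + (p1 + p0) := by
  simp

theorem kk_le {K : Type} [Field K] (ξ : Cfg K) (e : Fn × Option Fn) : kk ξ e ≤ 40 := by
  unfold kk
  refine (Submodule.finrank_le _).trans ?_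
  rw [Module.finrank_prod, Module.finrank_matrix, card_TA, card_TA, Module.finrank_self]
  obtain ⟨a, b⟩ := e
  cases b <;> simp [hh0, hh1, hh2]

theorem ks_le (e : Fn × Option Fn) : ks e ≤ 40 := by
  obtain ⟨a, b⟩ := e
  cases b with
  | none => simp [ks]
  | some l =>
    simp only [ks]
    split_ifs <;> omega

theorem kk_none {K : Type} [Field K] (ξ : Cfg K) (a : Fn) :
    kk ξ (a, none) = 5 * 1 + Module.finrank K
      (Hsub (ξ.1 a).1.1 (ξ.1 a).1.2 (ξ.2 none : PA 1 0 0 K).1.1 (ξ.2 none : PA 1 0 0 K).1.2) := by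
  rw [kk_eq, card_TA, card_TA]
  rfl

theorem kk_some {K : Type} [Field K] (ξ : Cfg K) (a l : Fn) :
    kk ξ (a, some l) = 5 * 4 + Module.finrank K
      (Hsub (ξ.1 a).1.1 (ξ.1 a).1.2 (ξ.2 (some l) : PA 1 2 1 K).1.1
        (ξ.2 (some l) : PA 1 2 1 K).1.2) := by
  rw [kk_eq, card_TA, card_TA]
  rfl

/-- No configuration when `2 ≠ 0`. -/
theorem no_cfg {K : Type} [Field K] (h2 : (2 : K) ≠ 0) (ξ : Cfg K) : kk ξ ≠ ks := by
  classical
  intro h
  have h1 : ∀ a : Fn, ∃ u : Fin 3 → K, CycRel (ξ.1 a).1.1 (ξ.1 a).1.2 topv u := by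
    intro a
    apply cyc_of_none (ξ.1 a) (ξ.2 none : PA 1 0 0 K)
    have := congrFun h (a, none)
    rw [kk_none] at this
    exact Nat.add_left_cancel this
  choose u hu using h1
  refine no_fano h2 u (fun l => lam (ξ.2 (some l) : PA 1 2 1 K)) ?_
  intro a l
  have h3 := congrFun h (a, some l)
  rw [kk_some] at h3
  have e1 := finrank_Hsub (cube_of (ξ.1 a)) (cube_of (ξ.2 (some l) : PA 1 2 1 K)) (hu a)
  have e2 := finrank_ker_Qu (u a) (ξ.2 (some l) : PA 1 2 1 K)
  have h4 := (e1.trans e2).symm.trans (Nat.add_left_cancel h3)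
  unfold dt
  change (if u a 0 * lam (ξ.2 (some l) : PA 1 2 1 K) 0 + u a 1 * lam (ξ.2 (some l) : PA 1 2 1 K) 1
    + u a 2 * lam (ξ.2 (some l) : PA 1 2 1 K) 2 = 0 then 4 else 3) =
    (if dt a.1 l.1 = 0 then 4 else 3) at h4
  constructor
  · intro h5
    rw [if_pos h5] at h4
    by_contra h6
    have : dt a.1 l.1 ≠ 0 := h6
    rw [if_neg this] at h4
    omega
  · intro h5
    have : dt a.1 l.1 = 0 := h5
    rw [if_pos this] at h4
    by_contra h6
    rw [if_neg h6] at h4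
    omega

/-- A configuration over the field with two elements. -/
theorem exists_cfg : ∃ ξ : Cfg (ZMod 2), kk ξ = ks := by
  classical
  have : Fact (Nat.Prime 2) := ⟨Nat.prime_two⟩
  choose f hf using fun a : Fn => exists_cyc a.1 a.2
  let g : ∀ b : Option Fn, PA (hh0 b) (hh1 b) (hh2 b) (ZMod 2) := fun b => match b with
    | none => (eta0 : PA 1 0 0 (ZMod 2))
    | some l => (etaL l.1 : PA 1 2 1 (ZMod 2))
  refine ⟨(f, g), ?_⟩
  funext e
  obtain ⟨a, b⟩ := e
  cases b with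
  | none =>
    rw [kk_none]
    have h1 := finrank_Hsub (cube_of (f a)) (cube_of (eta0 : PA 1 0 0 (ZMod 2))) (hf a)
    have h2 : Qu a.1 (eta0 : PA 1 0 0 (ZMod 2)).1.1 (eta0 : PA 1 0 0 (ZMod 2)).1.2 = 0 := by
      simp [Qu, eta0]
    rw [h2, mulVecLin_zero, LinearMap.ker_zero, finrank_top] at h1
    have h3 : Module.finrank (ZMod 2) (TA 1 0 0 → ZMod 2) = 1 := by
      rw [Module.finrank_fintype_fun_eq_card, card_TA]
    rw [h3] at h1
    exact congrArg (fun n => 5 * 1 + n) h1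
  | some l =>
    rw [kk_some]
    have h1 := finrank_Hsub (cube_of (f a)) (cube_of (etaL l.1)) (hf a)
    rw [finrank_ker_Qu, lam_etaL] at h1
    exact congrArg (fun n => 5 * 4 + n) h1

theorem main_contra
    (H : ∀ m : Fn → Option Fn → ℕ, ∃ P : Polynomial ℚ, ∀ (K : Type) [Field K] [Fintype K],
      ((Nat.card (MatPair (dv 2 2 1 hh0 hh1 hh2 m) (Xv 2 2 1 hh0 hh1 hh2 m)
        (genv 2 2 1 hh0 hh1 hh2 m) (mpv 2 2 1 hh0 hh1 hh2 m) K) : ℕ) : ℚ) =
        P.eval (Fintype.card K : ℚ)) : False := by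
  classical
  choose P hP using H
  obtain ⟨F, hF⟩ := isolate (E := Fn × Option Fn) 40 ks ks_le
    (fun m => P (fun a b => m (a, b)))
  have hK : ∀ (K : Type) [Field K] [Fintype K],
      (F.eval (Fintype.card K : ℚ) = 0 ↔ ∀ ξ : Cfg K, kk ξ ≠ ks) := by
    intro K _ _
    apply hF (Fintype.card K) (Cfg K) kk Fintype.one_lt_card kk_le
    intro m
    rw [← hP, card_matPair_eq_tot, card_tot, Nat.cast_sum]
    apply Finset.sum_congr rfl
    intro ξ _
    rw [Nat.cast_prod]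
    apply Finset.prod_congr rfl
    intro e _
    rw [card_Zs, Nat.cast_pow, Nat.cast_pow]
    rfl
  have hF0 : F = 0 := by
    apply Polynomial.eq_zero_of_infinite_isRoot
    have hinf : (Set.range (fun p : {p : ℕ // p.Prime ∧ p ≠ 2} => ((p.1 : ℕ) : ℚ))).Infinite := by
      have : Infinite {p : ℕ // p.Prime ∧ p ≠ 2} := by
        have h1 : ({p : ℕ | p.Prime} \ {2}).Infinite :=
          Nat.infinite_setOfPred_prime.sdiff (Set.finite_singleton 2)
        exact h1.to_subtype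
      apply Set.infinite_range_of_injective
      intro p q hpq
      exact Subtype.ext (Nat.cast_injective hpq)
    apply hinf.mono
    rintro _ ⟨⟨p, hp, hp2⟩, rfl⟩
    have : Fact p.Prime := ⟨hp⟩
    have h1 := hK (ZMod p)
    rw [ZMod.card] at h1
    show F.eval (p : ℚ) = 0
    rw [h1]
    apply no_cfg
    intro h2
    have h3 : ((2 : ℕ) : ZMod p) = 0 := by exact_mod_cast h2
    rw [ZMod.natCast_eq_zero_iff] at h3
    exact hp2 ((Nat.prime_dvd_prime_iff_eq hp Nat.prime_two).1 h3)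
  have : Fact (Nat.Prime 2) := ⟨Nat.prime_two⟩
  obtain ⟨ξ, hξ⟩ := exists_cfg
  exact (hK (ZMod 2)).1 (by rw [hF0]; simp) ξ hξ

end Pool.Agent.Lib_helper49
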